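import Pool.Agent.W788.NW.Stm

/-! Derivative of a product along the semigroup. -/

set_option autoImplicit false

open Finset Pool.Agent.W788.NV Pool.Agent.W788.NW

namespace Pool.Agent.W891.NW.Leib

theorem leib_ (hM : MK) : S_LEIB := by
  intro S ι _ _ _ r m F b x h τ
  classical
  set I : S → S → ℝ := fun y z => if z = y then 1 else 0 with hI
  have hrep : ∀ (H : S → ℝ) (t : ℝ), sg r m t H x = ∑ y, H y * sg r m t (I y) x := by
    intro H t
    have e : H = fun z => ∑ y, H y * I y z := by
      funext z
      simp [hI]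
    conv_lhs => rw [e]
    exact hM.lin S ι S r m H I x t
  have hB : ∀ y, HasDerivAt (fun τ => sg r m (h - τ) b y)
      (-(gf r m (sg r m (h - τ) b) y)) τ := by
    intro y
    have h1 := hM.deriv S ι r m b y (h - τ)
    have h2 : HasDerivAt (fun τ : ℝ => h - τ) (-1) τ := by
      simpa using (hasDerivAt_id τ).const_sub h
    have h3 := h1.comp τ h2
    rw [hM.comm] at h3
    have h4 : gf r m (sg r m (h - τ) b) y * (-1) = -(gf r m (sg r m (h - τ) b) y) := by ring
    rw [h4] at h3
    exact h3
  have hp : ∀ y, HasDerivAt (fun τ => sg r m τ (I y) x) (sg r m τ (gf r m (I y)) x) τ :=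
    fun y => hM.deriv S ι r m (I y) x τ
  have hfun : (fun τ => sg r m τ (fun y => F y * sg r m (h - τ) b y) x) =
      fun τ => ∑ y, (F y * sg r m (h - τ) b y) * sg r m τ (I y) x := by
    funext t
    exact hrep _ t
  rw [hfun]
  have hd := HasDerivAt.fun_sum (u := Finset.univ)
    (fun y _ => ((hB y).const_mul (F y)).mul (hp y))
  have hgf : ∀ (c : S → ℝ) (z : S), ∑ y, c y * gf r m (I y) z = gf r m c z := by
    intro c z
    unfold gf
    simp only [Finset.mul_sum]
    rw [Finset.sum_comm]
    refine Finset.sum_congr rfl fun e _ => ?_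
    have h1 : ∀ y, c y * (r e * (I y (m e z) - I y z)) =
        r e * (c y * I y (m e z)) - r e * (c y * I y z) := fun y => by ring
    simp only [h1, Finset.sum_sub_distrib, ← Finset.mul_sum]
    have h2 : ∀ z', ∑ y, c y * I y z' = c z' := by
      intro z'
      simp [hI]
    rw [h2, h2]
    ring
  have hval : sg r m τ (fun y => ∑ e, r e * ((F (m e y) - F y) * sg r m (h - τ) b (m e y))) x =
      ∑ y, (F y * -(gf r m (sg r m (h - τ) b) y) * sg r m τ (I y) x +
        F y * sg r m (h - τ) b y * sg r m τ (gf r m (I y)) x) := by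
    rw [Finset.sum_add_distrib]
    have e1 : ∑ y, F y * sg r m (h - τ) b y * sg r m τ (gf r m (I y)) x =
        sg r m τ (gf r m (fun y => F y * sg r m (h - τ) b y)) x := by
      have h1 := hM.lin S ι S r m (fun y => F y * sg r m (h - τ) b y)
        (fun y => gf r m (I y)) x τ
      rw [← h1]
      congr 1
      funext z
      exact hgf _ z
    rw [e1, hrep (gf r m (fun y => F y * sg r m (h - τ) b y)) τ, ← Finset.sum_add_distrib,
      hrep _ τ]
    refine Finset.sum_congr rfl fun y _ => ?_
    rw [← add_mul]
    congr 1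
    unfold gf
    rw [← Finset.sum_neg_distrib, Finset.mul_sum, ← Finset.sum_add_distrib]
    refine Finset.sum_congr rfl fun e _ => ?_
    simp only
    ring
  rw [hval]
  exact hd

end Pool.Agent.W891.NW.Leib
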